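import Pool.Agent.W2helper56.UL.Ping

/-!
# Group laws and points of finite order: the linear algebra
-/

set_option autoImplicit false

namespace Pool.Agent.W2helper56.UL

open Matrix

section
variable {G V : Type} [Group G] [AddCommGroup V]

/-- the operator `g` has the matrix `M` with respect to `P`, `Q` -/
def Ac (ρ : G →* AddMonoid.End V) (P Q : V) (g : G) (M : SpecialLinearGroup (Fin 2) ℤ) : Prop :=
  ρ g P = M.1 0 0 • P + M.1 1 0 • Q ∧ ρ g Q = M.1 0 1 • P + M.1 1 1 • Q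

variable {ρ : G →* AddMonoid.End V} {P Q : V}

theorem rho_mul (g g' : G) (v : V) : ρ (g * g') v = ρ g (ρ g' v) := by
  rw [map_mul]
  rfl

theorem rho_one (v : V) : ρ 1 v = v := by
  rw [map_one]
  rfl

theorem Ac.one : Ac ρ P Q 1 1 := by
  constructor <;> rw [rho_one] <;> simp

theorem Ac.mul {g g' : G} {M M' : SpecialLinearGroup (Fin 2) ℤ} (h : Ac ρ P Q g M)
    (h' : Ac ρ P Q g' M') : Ac ρ P Q (g * g') (M * M') := by
  have e : ∀ i j, (M * M').1 i j = M.1 i 0 * M'.1 0 j + M.1 i 1 * M'.1 1 j := by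
    intro i j
    simp [Matrix.mul_apply, Fin.sum_univ_two]
  constructor
  · rw [rho_mul, h'.1, map_add, map_zsmul, map_zsmul, h.1, h.2, e, e]
    module
  · rw [rho_mul, h'.2, map_add, map_zsmul, map_zsmul, h.1, h.2, e, e]
    module

theorem inv_aux {a b c d : ℤ} (hd : a * d - b * c = 1) {P Q P' Q' : V} (e1 : P = a • P' + c • Q')
    (e2 : Q = b • P' + d • Q') : P' = d • P + (-c) • Q ∧ Q' = (-b) • P + a • Q := by
  constructor
  · rw [e1, e2]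
    have e3 : d • (a • P' + c • Q') + (-c) • (b • P' + d • Q') = (a * d - b * c) • P' := by module
    rw [e3, hd, one_smul]
  · rw [e1, e2]
    have e3 : (-b) • (a • P' + c • Q') + a • (b • P' + d • Q') = (a * d - b * c) • Q' := by module
    rw [e3, hd, one_smul]

theorem Ac.inv {g : G} {M : SpecialLinearGroup (Fin 2) ℤ} (h : Ac ρ P Q g M) :
    Ac ρ P Q g⁻¹ M⁻¹ := by
  have hd : M.1 0 0 * M.1 1 1 - M.1 0 1 * M.1 1 0 = 1 := by
    have := M.2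
    rwa [Matrix.det_fin_two] at this
  have e1 : P = M.1 0 0 • ρ g⁻¹ P + M.1 1 0 • ρ g⁻¹ Q := by
    rw [← map_zsmul, ← map_zsmul, ← map_add, ← h.1, ← rho_mul, inv_mul_cancel, rho_one]
  have e2 : Q = M.1 0 1 • ρ g⁻¹ P + M.1 1 1 • ρ g⁻¹ Q := by
    rw [← map_zsmul, ← map_zsmul, ← map_add, ← h.2, ← rho_mul, inv_mul_cancel, rho_one]
  rw [Matrix.SpecialLinearGroup.SL2_inv_expl]
  exact inv_aux hd e1 e2

theorem Ac.lift {ι : Type} {τ : ι → G} {M : ι → SpecialLinearGroup (Fin 2) ℤ}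
    (h : ∀ i, Ac ρ P Q (τ i) (M i)) (w : FreeGroup ι) :
    Ac ρ P Q (FreeGroup.lift τ w) (FreeGroup.lift M w) := by
  induction w using FreeGroup.induction_on with
  | C1 =>
    rw [map_one, map_one]
    exact Ac.one
  | of i =>
    rw [FreeGroup.lift_apply_of, FreeGroup.lift_apply_of]
    exact h i
  | inv_of i hi =>
    rw [map_inv, map_inv]
    exact Ac.inv hi
  | mul x y hx hy =>
    rw [map_mul, map_mul]
    exact Ac.mul hx hy

/-- the matrix `(1 c; 0 1)` -/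
def Xm (c : ℤ) : SpecialLinearGroup (Fin 2) ℤ := ⟨!![1, c; 0, 1], by
  rw [Matrix.det_fin_two_of]
  ring⟩

/-- the matrix `(1 0; c 1)` -/
def Ym (c : ℤ) : SpecialLinearGroup (Fin 2) ℤ := ⟨!![1, 0; c, 1], by
  rw [Matrix.det_fin_two_of]
  ring⟩

theorem Xm_mul (a b : ℤ) : Xm a * Xm b = Xm (a + b) := by
  apply Subtype.ext
  change !![1, a; 0, 1] * !![1, b; 0, 1] = !![1, a + b; 0, 1]
  rw [Matrix.mul_fin_two]
  simp [add_comm]

theorem Xm_zero : Xm 0 = 1 := by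
  apply Subtype.ext
  change !![1, 0; 0, 1] = (1 : Matrix (Fin 2) (Fin 2) ℤ)
  rw [Matrix.one_fin_two]

theorem Xm_pow (c : ℤ) (e : ℕ) : Xm c ^ e = Xm (e * c) := by
  induction e with
  | zero =>
    rw [pow_zero, Nat.cast_zero, zero_mul, Xm_zero]
  | succ e ih =>
    rw [pow_succ, ih, Xm_mul]
    congr 1
    push_cast
    ring

theorem conj_eq (c : ℤ) (e : ℕ) : Xm c ^ e * Ym c * (Xm c ^ e)⁻¹ = sl c e := by
  rw [Xm_pow]
  have h : (Xm (e * c))⁻¹ = Xm (-(e * c)) := by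
    rw [inv_eq_iff_mul_eq_one, Xm_mul, add_neg_cancel, Xm_zero]
  rw [h]
  apply Subtype.ext
  change !![1, (e : ℤ) * c; 0, 1] * !![1, 0; c, 1] * !![1, -((e : ℤ) * c); 0, 1] =
    !![1 + (e : ℤ) * c ^ 2, -((e : ℤ) ^ 2 * c ^ 3); c, 1 - (e : ℤ) * c ^ 2]
  rw [Matrix.mul_fin_two, Matrix.mul_fin_two]
  congr 1
  ext i j
  fin_cases i <;> fin_cases j <;> simp <;> ring

theorem Ac.pow {g : G} {M : SpecialLinearGroup (Fin 2) ℤ} (h : Ac ρ P Q g M) (e : ℕ) :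
    Ac ρ P Q (g ^ e) (M ^ e) := by
  induction e with
  | zero =>
    rw [pow_zero, pow_zero]
    exact Ac.one
  | succ e ih =>
    rw [pow_succ, pow_succ]
    exact Ac.mul ih h

theorem lift_conj {ι : Type} (τ : ι → G) (g : G) (w : FreeGroup ι) :
    FreeGroup.lift (fun i => g⁻¹ * τ i * g) w = g⁻¹ * FreeGroup.lift τ w * g := by
  induction w using FreeGroup.induction_on with
  | C1 => simp
  | of i => simp
  | inv_of i hi =>
    rw [map_inv, map_inv, hi]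
    group
  | mul x y hx hy =>
    rw [map_mul, map_mul, hx, hy]
    group

/-- the elements on which the values of the word commute -/
def CS (ρ : G →* AddMonoid.End V) (H : Subgroup G) {r : ℕ} (w : FreeGroup (Fin r)) :
    AddSubgroup V where
  carrier := {v | ∀ τ τ' : Fin r → G, (∀ i, τ i ∈ H) → (∀ i, τ' i ∈ H) →
    ρ (FreeGroup.lift τ w * FreeGroup.lift τ' w) v = ρ (FreeGroup.lift τ' w * FreeGroup.lift τ w) v}
  zero_mem' := by
    intro τ τ' _ _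
    rw [map_zero, map_zero]
  add_mem' := by
    intro a b ha hb τ τ' h h'
    rw [map_add, map_add, ha τ τ' h h', hb τ τ' h h']
  neg_mem' := by
    intro a ha τ τ' h h'
    rw [map_neg, map_neg, ha τ τ' h h']

theorem CS_stable {H : Subgroup G} {r : ℕ} {w : FreeGroup (Fin r)} {v : V} (hv : v ∈ CS ρ H w)
    {g : G} (hg : g ∈ H) : ρ g v ∈ CS ρ H w := by
  intro τ τ' h h'
  have key : ∀ τ₁ τ₂ : Fin r → G, FreeGroup.lift τ₁ w * FreeGroup.lift τ₂ w * g =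
      g * (FreeGroup.lift (fun i => g⁻¹ * τ₁ i * g) w *
        FreeGroup.lift (fun i => g⁻¹ * τ₂ i * g) w) := by
    intro τ₁ τ₂
    rw [lift_conj, lift_conj]
    group
  have hm : ∀ τ₁ : Fin r → G, (∀ i, τ₁ i ∈ H) → ∀ i, g⁻¹ * τ₁ i * g ∈ H := by
    intro τ₁ h1 i
    exact H.mul_mem (H.mul_mem (H.inv_mem hg) (h1 i)) hg
  rw [← rho_mul, ← rho_mul, key, key, rho_mul, rho_mul (ρ := ρ) g]
  rw [hv _ _ (hm τ h) (hm τ' h')]

theorem mem_CS {H : Subgroup G} {r : ℕ} {w : FreeGroup (Fin r)} {z : V}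
    (hst : ∀ τ : Fin r → G, (∀ i, τ i ∈ H) → ∃ m : ℤ, ρ (FreeGroup.lift τ w) z = m • z) :
    z ∈ CS ρ H w := by
  intro τ τ' h h'
  obtain ⟨m, hm⟩ := hst τ h
  obtain ⟨m', hm'⟩ := hst τ' h'
  rw [rho_mul, rho_mul, hm, hm', map_zsmul, map_zsmul, hm, hm', smul_smul, smul_smul, mul_comm]

/-- the coordinates of a point of order `n` are primitive -/
theorem prim {n : ℕ} (hn : 1 ≤ n) (hP : (n : ℤ) • P = 0) (hQ : (n : ℤ) • Q = 0) {z : V}
    (hz : addOrderOf z = n) {α γ : ℤ} (hαγ : z = α • P + γ • Q) :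
    ∃ u v t : ℤ, u * α + v * γ + t * n = 1 := by
  obtain ⟨g, hg⟩ : ∃ g, g = Nat.gcd (Int.gcd α γ) n := ⟨_, rfl⟩
  have hgn : g ∣ n := by rw [hg]; exact Nat.gcd_dvd_right _ _
  have hgac : g ∣ Int.gcd α γ := by rw [hg]; exact Nat.gcd_dvd_left _ _
  have hgα : (g : ℤ) ∣ α := (Int.natCast_dvd_natCast.2 hgac).trans (Int.gcd_dvd_left ..)
  have hgγ : (g : ℤ) ∣ γ := (Int.natCast_dvd_natCast.2 hgac).trans (Int.gcd_dvd_right ..)
  obtain ⟨m, hm⟩ := hgn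
  obtain ⟨α', hα'⟩ := hgα
  obtain ⟨γ', hγ'⟩ := hgγ
  have h1 : m • z = 0 := by
    rw [← natCast_zsmul, hαγ, hα', hγ']
    have e1 : (m : ℤ) • (((g : ℤ) * α') • P + ((g : ℤ) * γ') • Q) =
        α' • (((g * m : ℕ) : ℤ) • P) + γ' • (((g * m : ℕ) : ℤ) • Q) := by
      push_cast
      module
    rw [e1, ← hm, hP, hQ, smul_zero, smul_zero, add_zero]
  have h2 := addOrderOf_dvd_of_nsmul_eq_zero h1
  rw [hz] at h2
  have hm0 : 0 < m := by
    rcases Nat.eq_zero_or_pos m with h0 | h0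
    · rw [h0, mul_zero] at hm; omega
    · exact h0
  have h3 := Nat.le_of_dvd hm0 h2
  rw [hm] at h3
  have hg0 : 0 < g := by
    rcases Nat.eq_zero_or_pos g with h0 | h0
    · rw [h0, zero_mul] at hm; omega
    · exact h0
  have hg1 : g = 1 := by nlinarith
  rw [hg1] at hg
  have b1 := Nat.gcd_eq_gcd_ab (Int.gcd α γ) n
  have b2 := Int.gcd_eq_gcd_ab α γ
  rw [← hg] at b1
  refine ⟨Int.gcdA α γ * Nat.gcdA (Int.gcd α γ) n, Int.gcdB α γ * Nat.gcdA (Int.gcd α γ) n,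
    Nat.gcdB (Int.gcd α γ) n, ?_⟩
  push_cast at b1
  rw [b2] at b1
  linarith

/-- **the order of a point which generates a subgroup stable under all values of a word** -/
theorem ord_le {H : Subgroup G} {n : ℕ} (hn : 1 ≤ n) (hP : (n : ℤ) • P = 0) (hQ : (n : ℤ) • Q = 0)
    (hspan : ∀ R : V, (n : ℤ) • R = 0 → ∃ a b : ℤ, R = a • P + b • Q)
    (hind : ∀ a b : ℤ, a • P + b • Q = 0 → (n : ℤ) ∣ a ∧ (n : ℤ) ∣ b)
    {c : ℤ} (hc : 3 ≤ c) {x y : G} (hx : x ∈ H) (hy : y ∈ H) (hxa : Ac ρ P Q x (Xm c))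
    (hya : Ac ρ P Q y (Ym c)) {r : ℕ} {w : FreeGroup (Fin r)} (hw : w ≠ 1) {z : V}
    (hz : addOrderOf z = n)
    (hst : ∀ τ : Fin r → G, (∀ i, τ i ∈ H) → ∃ m : ℤ, ρ (FreeGroup.lift τ w) z = m • z) :
    (n : ℤ) ≤ 8 * c ^ 2 * (((2 * r + 2) ^ 2 * c ^ 3) ^ w.toWord.length) ^ 2 := by
  have hnz : (n : ℤ) • z = 0 := by
    rw [natCast_zsmul, ← hz]
    exact addOrderOf_nsmul_eq_zero z
  obtain ⟨α, γ, hαγ⟩ := hspan z hnz
  obtain ⟨u, v, t, huv⟩ := prim hn hP hQ hz hαγ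
  have hzS : z ∈ CS ρ H w := mem_CS hst
  have x1 : ρ x P = P := by
    rw [hxa.1]
    simp [Xm]
  have x2 : ρ x Q = c • P + Q := by
    rw [hxa.2]
    simp [Xm]
  have y1 : ρ y P = P + c • Q := by
    rw [hya.1]
    simp [Ym]
  have y2 : ρ y Q = Q := by
    rw [hya.2]
    simp [Ym]
  have s1 : (γ * c) • P ∈ CS ρ H w := by
    have h := (CS ρ H w).sub_mem (CS_stable hzS hx) hzS
    have e : ρ x z - z = (γ * c) • P := by
      rw [hαγ, map_add, map_zsmul, map_zsmul, x1, x2]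
      module
    rwa [e] at h
  have s2 : (α * c) • Q ∈ CS ρ H w := by
    have h := (CS ρ H w).sub_mem (CS_stable hzS hy) hzS
    have e : ρ y z - z = (α * c) • Q := by
      rw [hαγ, map_add, map_zsmul, map_zsmul, y1, y2]
      module
    rwa [e] at h
  have s3 : (γ * c ^ 2) • Q ∈ CS ρ H w := by
    have h := (CS ρ H w).sub_mem (CS_stable s1 hy) s1
    have e : ρ y ((γ * c) • P) - (γ * c) • P = (γ * c ^ 2) • Q := by
      rw [map_zsmul, y1]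
      module
    rwa [e] at h
  have s4 : (α * c ^ 2) • P ∈ CS ρ H w := by
    have h := (CS ρ H w).sub_mem (CS_stable s2 hx) s2
    have e : ρ x ((α * c) • Q) - (α * c) • Q = (α * c ^ 2) • P := by
      rw [map_zsmul, x2]
      module
    rwa [e] at h
  have s5 : (γ * c ^ 2) • P ∈ CS ρ H w := by
    have h := (CS ρ H w).zsmul_mem s1 c
    have e : c • ((γ * c) • P) = (γ * c ^ 2) • P := by module
    rwa [e] at h
  have s6 : (α * c ^ 2) • Q ∈ CS ρ H w := by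
    have h := (CS ρ H w).zsmul_mem s2 c
    have e : c • ((α * c) • Q) = (α * c ^ 2) • Q := by module
    rwa [e] at h
  have hcomb : ∀ R : V, (n : ℤ) • R = 0 → (α * c ^ 2) • R ∈ CS ρ H w →
      (γ * c ^ 2) • R ∈ CS ρ H w → (c ^ 2) • R ∈ CS ρ H w := by
    intro R hR h1 h2
    have h3 := (CS ρ H w).add_mem ((CS ρ H w).zsmul_mem h1 u) ((CS ρ H w).zsmul_mem h2 v)
    have e : (c ^ 2) • R = u • ((α * c ^ 2) • R) + v • ((γ * c ^ 2) • R) := by
      have e1 : (c ^ 2) • R = ((u * α + v * γ + t * n) * c ^ 2) • R := by rw [huv, one_mul]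
      have e2 : ((u * α + v * γ + t * n) * c ^ 2) • R =
          u • ((α * c ^ 2) • R) + v • ((γ * c ^ 2) • R) + (t * c ^ 2) • ((n : ℤ) • R) := by module
      rw [e1, e2, hR, smul_zero, add_zero]
    rw [e]
    exact h3
  have tP := hcomb P hP s4 s5
  have tQ := hcomb Q hQ s6 s3
  -- the two families
  have hfam : ∀ e : Fin r → ℕ, (∀ i, x ^ e i * y * (x ^ e i)⁻¹ ∈ H) ∧
      Ac ρ P Q (FreeGroup.lift (fun i => x ^ e i * y * (x ^ e i)⁻¹) w) (wv w c e) := by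
    intro e
    refine ⟨fun i => H.mul_mem (H.mul_mem (H.pow_mem hx _) hy) (H.inv_mem (H.pow_mem hx _)), ?_⟩
    refine Ac.lift (fun i => ?_) w
    rw [← conj_eq c (e i)]
    exact ((hxa.pow _).mul hya).mul (hxa.pow _).inv
  obtain ⟨a1, a2⟩ := hfam (ea r)
  obtain ⟨b1, b2⟩ := hfam (eb r)
  have hAB := a2.mul b2
  have hBA := b2.mul a2
  have kP := tP _ _ a1 b1
  have kQ := tQ _ _ a1 b1
  rw [map_zsmul, map_zsmul, hAB.1, hBA.1] at kP
  rw [map_zsmul, map_zsmul, hAB.2, hBA.2] at kQ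
  obtain ⟨i, j, hij, hbd⟩ := comm_entry hw hc
  generalize (wv w c (ea r) * wv w c (eb r)).1 = A at *
  generalize (wv w c (eb r) * wv w c (ea r)).1 = B at *
  have dP := hind (c ^ 2 * (A 0 0 - B 0 0)) (c ^ 2 * (A 1 0 - B 1 0)) (by
    have : (c ^ 2 * (A 0 0 - B 0 0)) • P + (c ^ 2 * (A 1 0 - B 1 0)) • Q =
        c ^ 2 • (A 0 0 • P + A 1 0 • Q) - c ^ 2 • (B 0 0 • P + B 1 0 • Q) := by module
    rw [this, kP, sub_self])
  have dQ := hind (c ^ 2 * (A 0 1 - B 0 1)) (c ^ 2 * (A 1 1 - B 1 1)) (by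
    have : (c ^ 2 * (A 0 1 - B 0 1)) • P + (c ^ 2 * (A 1 1 - B 1 1)) • Q =
        c ^ 2 • (A 0 1 • P + A 1 1 • Q) - c ^ 2 • (B 0 1 • P + B 1 1 • Q) := by module
    rw [this, kQ, sub_self])
  have hdvd : (n : ℤ) ∣ c ^ 2 * (A i j - B i j) := by
    fin_cases i <;> fin_cases j
    · exact dP.1
    · exact dQ.1
    · exact dP.2
    · exact dQ.2
  have hc2 : 0 < c ^ 2 := by positivity
  have h1 : (n : ℤ) ≤ |c ^ 2 * (A i j - B i j)| := by
    apply Int.le_of_dvd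
    · rw [abs_pos]
      exact mul_ne_zero hc2.ne' hij
    · exact (dvd_abs _ _).2 hdvd
  rw [abs_mul, abs_of_pos hc2] at h1
  calc (n : ℤ) ≤ c ^ 2 * |A i j - B i j| := h1
    _ ≤ c ^ 2 * (8 * (((2 * r + 2) ^ 2 * c ^ 3) ^ w.toWord.length) ^ 2) :=
        mul_le_mul_of_nonneg_left hbd hc2.le
    _ = _ := by ring

theorem Xm_inv (c : ℤ) : (Xm c)⁻¹ = Xm (-c) := by
  rw [inv_eq_iff_mul_eq_one, Xm_mul, add_neg_cancel, Xm_zero]

theorem Ym_mul (a b : ℤ) : Ym a * Ym b = Ym (a + b) := by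
  apply Subtype.ext
  change !![1, 0; a, 1] * !![1, 0; b, 1] = !![1, 0; a + b, 1]
  rw [Matrix.mul_fin_two]
  simp

theorem Ym_zero : Ym 0 = 1 := by
  apply Subtype.ext
  change !![1, 0; 0, 1] = (1 : Matrix (Fin 2) (Fin 2) ℤ)
  rw [Matrix.one_fin_two]

theorem Ym_inv (c : ℤ) : (Ym c)⁻¹ = Ym (-c) := by
  rw [inv_eq_iff_mul_eq_one, Ym_mul, add_neg_cancel, Ym_zero]

theorem comm_eq (a b : ℤ) : (Xm a * Ym b * (Xm a)⁻¹ * (Ym b)⁻¹).1 =
    !![1 + a * b + a ^ 2 * b ^ 2, -(a ^ 2 * b); a * b ^ 2, 1 - a * b] := by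
  rw [Xm_inv, Ym_inv]
  change !![1, a; 0, 1] * !![1, 0; b, 1] * !![1, -a; 0, 1] * !![1, 0; -b, 1] = _
  rw [Matrix.mul_fin_two, Matrix.mul_fin_two, Matrix.mul_fin_two]
  congr 1
  ext i j
  fin_cases i <;> fin_cases j <;> simp <;> ring

/-- **the order of a point which generates a subgroup stable under the commutators** -/
theorem ord_ab {H : Subgroup G} {n : ℕ} (hn : 1 ≤ n) (hP : (n : ℤ) • P = 0) (hQ : (n : ℤ) • Q = 0)
    (hspan : ∀ R : V, (n : ℤ) • R = 0 → ∃ a b : ℤ, R = a • P + b • Q)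
    (hind : ∀ a b : ℤ, a • P + b • Q = 0 → (n : ℤ) ∣ a ∧ (n : ℤ) ∣ b)
    {a b : ℤ} {x y : G} (hx : x ∈ H) (hy : y ∈ H) (hxa : Ac ρ P Q x (Xm a))
    (hya : Ac ρ P Q y (Ym b)) {z : V} (hz : addOrderOf z = n)
    (hst : ∀ g ∈ H, ∀ h ∈ H, ∃ m : ℤ, ρ (g * h * g⁻¹ * h⁻¹) z = m • z) :
    (n : ℤ) ∣ 8 * a ^ 2 * b ^ 2 := by
  have hnz : (n : ℤ) • z = 0 := by
    rw [natCast_zsmul, ← hz]
    exact addOrderOf_nsmul_eq_zero z
  obtain ⟨p, q, hpq⟩ := hspan z hnz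
  obtain ⟨u, v, t, huv⟩ := prim hn hP hQ hz hpq
  have key : ∀ (s t : ℤ) (g h : G), g ∈ H → h ∈ H → Ac ρ P Q g (Xm s) → Ac ρ P Q h (Ym t) →
      (n : ℤ) ∣ s * t ^ 2 * p ^ 2 + s ^ 2 * t * q ^ 2 - (2 * (s * t) + s ^ 2 * t ^ 2) * (p * q) := by
    intro s t g h hg hh h1 h2
    have h3 := ((h1.mul h2).mul h1.inv).mul h2.inv
    obtain ⟨m, hm⟩ := hst g hg h hh
    have h4 := h3.1
    have h5 := h3.2
    rw [comm_eq] at h4 h5
    have h4' : ρ (g * h * g⁻¹ * h⁻¹) P = (1 + s * t + s ^ 2 * t ^ 2) • P + (s * t ^ 2) • Q := h4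
    have h5' : ρ (g * h * g⁻¹ * h⁻¹) Q = (-(s ^ 2 * t)) • P + (1 - s * t) • Q := h5
    rw [hpq, map_add, map_zsmul, map_zsmul, h4', h5'] at hm
    obtain ⟨⟨c1, hc1⟩, ⟨c2, hc2⟩⟩ := hind ((1 + s * t + s ^ 2 * t ^ 2) * p - s ^ 2 * t * q - m * p)
      (s * t ^ 2 * p + (1 - s * t) * q - m * q) (by
        have e : ((1 + s * t + s ^ 2 * t ^ 2) * p - s ^ 2 * t * q - m * p) • P +
            (s * t ^ 2 * p + (1 - s * t) * q - m * q) • Q =
            (p • ((1 + s * t + s ^ 2 * t ^ 2) • P + (s * t ^ 2) • Q) +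
              q • ((-(s ^ 2 * t)) • P + (1 - s * t) • Q)) - m • (p • P + q • Q) := by module
        rw [e, hm, sub_self])
    refine ⟨c2 * p - c1 * q, ?_⟩
    linear_combination p * hc2 - q * hc1
  have hx' : Ac ρ P Q x⁻¹ (Xm (-a)) := by
    rw [← Xm_inv]
    exact hxa.inv
  have hy' : Ac ρ P Q y⁻¹ (Ym (-b)) := by
    rw [← Ym_inv]
    exact hya.inv
  obtain ⟨e1, he1⟩ := key a b x y hx hy hxa hya
  obtain ⟨e2, he2⟩ := key (-a) (-b) x⁻¹ y⁻¹ (H.inv_mem hx) (H.inv_mem hy) hx' hy'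
  obtain ⟨e3, he3⟩ := key a (-b) x y⁻¹ hx (H.inv_mem hy) hxa hy'
  obtain ⟨e4, he4⟩ := key (-a) b x⁻¹ y (H.inv_mem hx) hy hx' hya
  -- 4ab²p², 4a²bq², 8abpq
  have f1 : 4 * (a * b ^ 2 * p ^ 2) = n * (e1 - e2 + e3 - e4) := by
    linear_combination he1 - he2 + he3 - he4
  have f2 : 4 * (a ^ 2 * b * q ^ 2) = n * (e1 - e2 - e3 + e4) := by
    linear_combination he1 - he2 - he3 + he4
  have f3 : 8 * (a * b * (p * q)) = n * (-(e1 + e2) + (e3 + e4)) := by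
    linear_combination -he1 - he2 + he3 + he4
  have hsq : 8 * a ^ 2 * b ^ 2 = 8 * a ^ 2 * b ^ 2 * (u * p + v * q + t * n) ^ 2 := by
    rw [huv]
    ring
  rw [hsq]
  refine ⟨u ^ 2 * (2 * a) * (e1 - e2 + e3 - e4) + v ^ 2 * (2 * b) * (e1 - e2 - e3 + e4) +
    2 * u * v * (a * b) * (-(e1 + e2) + (e3 + e4)) +
    8 * a ^ 2 * b ^ 2 * (2 * (u * p + v * q) * t + t ^ 2 * n), ?_⟩
  linear_combination u ^ 2 * (2 * a) * f1 + v ^ 2 * (2 * b) * f2 + 2 * u * v * (a * b) * f3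

end

end Pool.Agent.W2helper56.UL
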