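import Pool.Agent.N495.TS.TW
import Pool.Agent.W2helper56.UL.Grp

/-!
# Curves over a Galois extension `F` of `K` whose invariant lies in `k`: twists, base change and group laws

The part on twists follows `Pool.Agent.N495.TS.tw_exists` (helper495), which is the case `F = K`.
-/

set_option autoImplicit false

namespace Pool.Agent.W2helper56.UL

open WeierstrassCurve Pool.Agent.H901R3.MS Pool.Agent.W275.FM
open Pool.Agent.Y673.Loc Pool.Agent.Y673.FM
open Pool.Agent.N495.TS

theorem map_lift' {G G' : Type*} [Group G] [Group G'] {ι : Type} (f : G →* G') (τ : ι → G)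
    (w : FreeGroup ι) : f (FreeGroup.lift τ w) = FreeGroup.lift (fun i => f (τ i)) w := by
  induction w using FreeGroup.induction_on with
  | C1 => simp
  | of i => simp
  | inv_of i hi => rw [map_inv, map_inv, map_inv, hi]
  | mul x y hx hy => rw [map_mul, map_mul, map_mul, hx, hy]

section
variable {k : Type} [Field k] (K : Type) [Field K] (F : Type) [Field F]
  [Algebra K F] [Algebra k F] [IsGalois K F]

/-- the values of a law of `Gal(F/K)` at automorphisms which fix `K` are automorphisms which fix `F` -/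
theorem law_lift (ι : AlgebraicClosure k ≃ₐ[k] AlgebraicClosure F) {r : ℕ} {w : FreeGroup (Fin r)}
    (hw : ∀ h : Fin r → (F ≃ₐ[K] F), FreeGroup.lift h w = 1)
    (τ : Fin r → (AlgebraicClosure k ≃ₐ[k] AlgebraicClosure k))
    (hτ : ∀ i, ∀ x : K, τ i (ι.symm (algebraMap K (AlgebraicClosure F) x)) =
      ι.symm (algebraMap K (AlgebraicClosure F) x)) :
    ∃ σ : AlgebraicClosure F ≃ₐ[F] AlgebraicClosure F,
      ι.trans ((σ.restrictScalars k).trans ι.symm) = FreeGroup.lift τ w := by
  have hex : ∀ i, ∃ η : AlgebraicClosure F ≃ₐ[K] AlgebraicClosure F,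
      ∀ x, η x = ι (τ i (ι.symm x)) := by
    intro i
    refine ⟨AlgEquiv.ofRingEquiv
      (f := ((ι.symm.trans ((τ i).trans ι) : AlgebraicClosure F ≃ₐ[k] AlgebraicClosure F) :
        AlgebraicClosure F ≃+* AlgebraicClosure F)) ?_, fun x => rfl⟩
    intro x
    show ι (τ i (ι.symm (algebraMap K (AlgebraicClosure F) x))) = _
    rw [hτ, AlgEquiv.apply_symm_apply]
  choose η hη using hex
  have hval : ∀ (u : FreeGroup (Fin r)) (x : AlgebraicClosure F),
      (FreeGroup.lift η u) x = ι ((FreeGroup.lift τ u) (ι.symm x)) := by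
    intro u
    induction u using FreeGroup.induction_on with
    | C1 =>
      intro x
      rw [map_one, map_one]
      show x = ι (ι.symm x)
      rw [AlgEquiv.apply_symm_apply]
    | of i =>
      intro x
      rw [FreeGroup.lift_apply_of, FreeGroup.lift_apply_of]
      exact hη i x
    | inv_of i hi =>
      intro x
      rw [map_inv, map_inv]
      have h1 := hi ((FreeGroup.lift η (FreeGroup.of i))⁻¹ x)
      have h2 : (FreeGroup.lift η (FreeGroup.of i)) ((FreeGroup.lift η (FreeGroup.of i))⁻¹ x) = x := by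
        rw [← AlgEquiv.mul_apply, mul_inv_cancel]
        rfl
      have h3 : ι.symm x = (FreeGroup.lift τ (FreeGroup.of i))
          (ι.symm ((FreeGroup.lift η (FreeGroup.of i))⁻¹ x)) := by
        rw [← ι.symm_apply_apply ((FreeGroup.lift τ (FreeGroup.of i)) _), ← h1]
        exact congrArg ι.symm h2.symm
      have h4 : (FreeGroup.lift τ (FreeGroup.of i))⁻¹ (ι.symm x) =
          ι.symm ((FreeGroup.lift η (FreeGroup.of i))⁻¹ x) := by
        rw [h3, ← AlgEquiv.mul_apply, inv_mul_cancel]
        rfl
      show (FreeGroup.lift η (FreeGroup.of i))⁻¹ x =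
        ι ((FreeGroup.lift τ (FreeGroup.of i))⁻¹ (ι.symm x))
      rw [h4, AlgEquiv.apply_symm_apply]
    | mul a b ha hb =>
      intro x
      rw [map_mul, map_mul, AlgEquiv.mul_apply, AlgEquiv.mul_apply, ha, hb, AlgEquiv.symm_apply_apply]
  have hfix : ∀ x : F, (FreeGroup.lift η w) (algebraMap F (AlgebraicClosure F) x) =
      algebraMap F (AlgebraicClosure F) x := by
    intro x
    have h1 := AlgEquiv.restrictNormal_commutes (FreeGroup.lift η w) F x
    have h2 : AlgEquiv.restrictNormalHom F (FreeGroup.lift η w) = 1 := by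
      rw [map_lift' (AlgEquiv.restrictNormalHom F) η w]
      exact hw _
    have h3 : (FreeGroup.lift η w).restrictNormal F = 1 := h2
    rw [h3] at h1
    exact h1.symm
  refine ⟨AlgEquiv.ofRingEquiv (f := ((FreeGroup.lift η w : AlgebraicClosure F ≃ₐ[K]
    AlgebraicClosure F) : AlgebraicClosure F ≃+* AlgebraicClosure F)) hfix, ?_⟩
  ext x
  show ι.symm ((FreeGroup.lift η w) (ι x)) = (FreeGroup.lift τ w) x
  rw [hval, AlgEquiv.symm_apply_apply, AlgEquiv.symm_apply_apply]

end

open scoped Classical in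
/-- **curves over `F` with invariant in the base field** -/
theorem twF {k : Type} [Field k] [CharZero k] (K : Type) [Field K] [CharZero K] [Algebra k K]
    [FiniteDimensional k K] (F : Type) [Field F] [CharZero F] [Algebra K F] [Algebra k F]
    [IsScalarTower k K F] [IsGalois K F] :
    ∃ (M : IntermediateField k (AlgebraicClosure k))
      (θ : (AlgebraicClosure F ≃ₐ[F] AlgebraicClosure F) →
        (AlgebraicClosure k ≃ₐ[k] AlgebraicClosure k)),
      FiniteDimensional k M ∧ Module.finrank k M = Module.finrank k K ∧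
      (∀ (r : ℕ) (w : FreeGroup (Fin r)), (∀ h : Fin r → (F ≃ₐ[K] F), FreeGroup.lift h w = 1) →
        ∀ τ : Fin r → (AlgebraicClosure k ≃ₐ[k] AlgebraicClosure k),
          (∀ i, τ i ∈ M.fixingSubgroup) → ∃ σ, θ σ = FreeGroup.lift τ w) ∧
      ∀ (A B r : F) (A₀ B₀ : k), r ≠ 0 → algebraMap k F A₀ = r ^ 2 * A →
        algebraMap k F B₀ = r ^ 3 * B →
        ∃ φ : EP A B →+ EP A₀ B₀, Function.Injective φ ∧
          ∀ σ, (∀ P, φ (act A B σ P) = act A₀ B₀ (θ σ) (φ P)) ∨
            (∀ P, φ (act A B σ P) = - act A₀ B₀ (θ σ) (φ P)) := by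
  set Ω := AlgebraicClosure F with hF
  have hKF : Algebra.IsAlgebraic K F := inferInstance
  have hkF : Algebra.IsAlgebraic k F := Algebra.IsAlgebraic.trans k K F
  have hcl : IsAlgClosure k Ω := ⟨inferInstance, Algebra.IsAlgebraic.trans k F Ω⟩
  have : CharZero Ω := charZero_of_injective_algebraMap (algebraMap F Ω).injective
  have : CharZero (AlgebraicClosure k) :=
    charZero_of_injective_algebraMap (algebraMap k (AlgebraicClosure k)).injective
  set ι : AlgebraicClosure k ≃ₐ[k] Ω := IsAlgClosure.equiv k (AlgebraicClosure k) Ω with hι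
  let j : K →ₐ[k] AlgebraicClosure k :=
    (ι.symm : Ω →ₐ[k] AlgebraicClosure k).comp (IsScalarTower.toAlgHom k K Ω)
  have hj : ∀ x : K, j x = ι.symm (algebraMap K Ω x) := fun x => rfl
  refine ⟨j.fieldRange, fun σ => ι.trans ((σ.restrictScalars k).trans ι.symm), ?_, ?_, ?_, ?_⟩
  · exact (AlgEquiv.ofInjectiveField j).toLinearEquiv.finiteDimensional
  · exact (AlgEquiv.ofInjectiveField j).toLinearEquiv.finrank_eq.symm
  · intro r w hw τ hτ
    refine law_lift K F ι hw τ ?_
    intro i x
    have h1 := hτ i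
    rw [IntermediateField.mem_fixingSubgroup_iff] at h1
    exact h1 (j x) ⟨x, rfl⟩
  · intro A B r A₀ B₀ hr hA hB
    obtain ⟨s, hs⟩ := IsAlgClosed.exists_pow_nat_eq (ι.symm (algebraMap F Ω r)) (n := 2) (by norm_num)
    have hρ : ι.symm (algebraMap F Ω r) ≠ 0 := by
      rw [Ne, map_eq_zero, map_eq_zero]
      exact hr
    have hs0 : s ≠ 0 := by
      rintro rfl
      apply hρ
      rw [← hs]
      ring
    set u : AlgebraicClosure k := s⁻¹ with hu
    have hu0 : u ≠ 0 := inv_ne_zero hs0
    let φ₀ : Ω →+* AlgebraicClosure k := ((ι.symm : Ω ≃ₐ[k] AlgebraicClosure k) : Ω →+* AlgebraicClosure k)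
    have hφ₀ : ∀ x : Ω, φ₀ x = ι.symm x := fun x => rfl
    have hcaA : ca (AlgebraicClosure k) A₀ = s ^ 4 * φ₀ (ca Ω A) := by
      have h1 : ca (AlgebraicClosure k) A₀ = ι.symm (algebraMap F Ω (algebraMap k F A₀)) := by
        rw [← IsScalarTower.algebraMap_apply, AlgEquiv.commutes]
      rw [h1, hA, map_mul, map_mul, map_pow, map_pow, ← hs, hφ₀]
      ring
    have hcaB : ca (AlgebraicClosure k) B₀ = s ^ 6 * φ₀ (ca Ω B) := by
      have h1 : ca (AlgebraicClosure k) B₀ = ι.symm (algebraMap F Ω (algebraMap k F B₀)) := by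
        rw [← IsScalarTower.algebraMap_apply, AlgEquiv.commutes]
      rw [h1, hB, map_mul, map_mul, map_pow, map_pow, ← hs, hφ₀]
      ring
    have hA' : φ₀ (ca Ω A) = u ^ 4 * ca (AlgebraicClosure k) A₀ := by
      rw [hcaA, hu]
      field_simp
    have hB' : φ₀ (ca Ω B) = u ^ 6 * ca (AlgebraicClosure k) B₀ := by
      rw [hcaB, hu]
      field_simp
    let T := tw φ₀ u two_ne_zero hu0 hA' hB'
    refine ⟨((eqv A₀ B₀ (AlgebraicClosure k)).symm.toAddMonoidHom.comp T).comp
      (eqv A B Ω).toAddMonoidHom, ?_, ?_⟩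
    · intro P Q h
      apply (eqv A B Ω).injective
      apply tw_inj φ₀ u two_ne_zero hu0 hA' hB'
      exact (eqv A₀ B₀ (AlgebraicClosure k)).symm.injective h
    · intro σ
      set θ : AlgebraicClosure k ≃ₐ[k] AlgebraicClosure k :=
        ι.trans ((σ.restrictScalars k).trans ι.symm) with hθ
      have hθx : ∀ x : Ω, θ (ι.symm x) = ι.symm (σ x) := by
        intro x
        show ι.symm (σ (ι (ι.symm x))) = ι.symm (σ x)
        rw [AlgEquiv.apply_symm_apply]
      have hθs : (θ s) ^ 2 = s ^ 2 := by
        rw [← map_pow, hs, hθx, AlgEquiv.commutes]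
      have hcases : θ u = u ∨ θ u = -u := by
        rcases sq_eq_sq_iff_eq_or_eq_neg.1 hθs with h | h
        · left
          rw [hu, map_inv₀, h]
        · right
          rw [hu, map_inv₀, h, inv_neg]
      have key : ∀ (P : EP A B), eqv A₀ B₀ (AlgebraicClosure k)
          (((eqv A₀ B₀ (AlgebraicClosure k)).symm.toAddMonoidHom.comp T).comp
            (eqv A B Ω).toAddMonoidHom (act A B σ P)) =
          T (mp A B (σ : Ω →ₐ[F] Ω) (eqv A B Ω P)) := by
        intro P
        show eqv A₀ B₀ (AlgebraicClosure k) ((eqv A₀ B₀ (AlgebraicClosure k)).symm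
          (T (eqv A B Ω (act A B σ P)))) = _
        rw [AddEquiv.apply_symm_apply, act_eqv]
      have key2 : ∀ (P : EP A B), eqv A₀ B₀ (AlgebraicClosure k) (act A₀ B₀ θ
          (((eqv A₀ B₀ (AlgebraicClosure k)).symm.toAddMonoidHom.comp T).comp
            (eqv A B Ω).toAddMonoidHom P)) =
          mp A₀ B₀ (θ : AlgebraicClosure k →ₐ[k] AlgebraicClosure k) (T (eqv A B Ω P)) := by
        intro P
        rw [act_eqv]
        congr 1
        show eqv A₀ B₀ (AlgebraicClosure k) ((eqv A₀ B₀ (AlgebraicClosure k)).symm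
          (T (eqv A B Ω P))) = _
        rw [AddEquiv.apply_symm_apply]
      rcases hcases with h | h
      · left
        intro P
        apply (eqv A₀ B₀ (AlgebraicClosure k)).injective
        rw [key, key2]
        rcases eqv A B Ω P with _ | ⟨x, y, hxy⟩
        · have e0 : (Affine.Point.zero : Pt (ca Ω A) (ca Ω B)) = 0 := rfl
          rw [e0, map_zero, map_zero, map_zero]
        · rw [mp_some]
          show tw φ₀ u two_ne_zero hu0 hA' hB' _ = mp A₀ B₀ _ (tw φ₀ u two_ne_zero hu0 hA' hB' _)
          rw [tw_some, tw_some, mp_some]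
          apply pt_ext'
          · show ι.symm (σ x) / u ^ 2 = θ (ι.symm x / u ^ 2)
            rw [map_div₀, map_pow, h, hθx]
          · show ι.symm (σ y) / u ^ 3 = θ (ι.symm y / u ^ 3)
            rw [map_div₀, map_pow, h, hθx]
      · right
        intro P
        apply (eqv A₀ B₀ (AlgebraicClosure k)).injective
        rw [map_neg, key, key2]
        rcases eqv A B Ω P with _ | ⟨x, y, hxy⟩
        · have e0 : (Affine.Point.zero : Pt (ca Ω A) (ca Ω B)) = 0 := rfl
          rw [e0, map_zero, map_zero, map_zero, neg_zero]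
        · rw [mp_some]
          show tw φ₀ u two_ne_zero hu0 hA' hB' _ = - mp A₀ B₀ _ (tw φ₀ u two_ne_zero hu0 hA' hB' _)
          rw [tw_some, tw_some, mp_some, Affine.Point.neg_some]
          apply pt_ext'
          · show ι.symm (σ x) / u ^ 2 = θ (ι.symm x / u ^ 2)
            rw [map_div₀, map_pow, h, hθx]
            ring
          · have e1 : ∀ (a b x y : AlgebraicClosure k), (CV a b).toAffine.negY x y = -y := by
              intro a b x y
              simp [Affine.negY, CV]
            rw [e1]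
            show ι.symm (σ y) / u ^ 3 = -θ (ι.symm y / u ^ 3)
            rw [map_div₀, map_pow, h, hθx]
            have : (-u) ^ 3 = -u ^ 3 := by ring
            rw [this, div_neg, neg_neg]

end Pool.Agent.W2helper56.UL
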