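import Pool.Agent.N495.TS.GenB
import Pool.Agent.W2helper56.UL.TWF

/-!
# Torsion of products of elliptic curves over extensions whose Galois group satisfies a law
-/

set_option autoImplicit false

namespace Pool.Agent.W2helper56.UL

open WeierstrassCurve NumberField
open Pool.Agent.Y673.Loc Pool.Agent.Y673.SL
open Pool.Agent.Q19.SU
open Pool.Agent.H901R3.MS Pool.Agent.W275.FM
open Pool.Agent.N495.TS

section
variable {k : Type} [Field k] [NumberField k]

open scoped Classical in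
/-- the action on the points as a homomorphism -/
noncomputable def rho (A B : k) :
    (AlgebraicClosure k ≃ₐ[k] AlgebraicClosure k) →* AddMonoid.End (EP A B) where
  toFun σ := act A B σ
  map_one' := by
    apply AddMonoidHom.ext
    intro P
    exact act_one A B P
  map_mul' σ τ := by
    apply AddMonoidHom.ext
    intro P
    exact act_mul A B σ τ P

open scoped Classical in
theorem rho_apply (A B : k) (σ : AlgebraicClosure k ≃ₐ[k] AlgebraicClosure k) (P : EP A B) :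
    rho A B σ P = act A B σ P := rfl

theorem pig (M : IntermediateField k (AlgebraicClosure k)) [FiniteDimensional k M]
    (σ : AlgebraicClosure k ≃ₐ[k] AlgebraicClosure k) :
    ∃ a : ℕ, 0 < a ∧ a ≤ Module.finrank k M ∧ σ ^ a ∈ M.fixingSubgroup := by
  classical
  have hcard : Fintype.card (M →ₐ[k] AlgebraicClosure k) = Module.finrank k M :=
    AlgHom.card k M (AlgebraicClosure k)
  obtain ⟨i, hi, j, hj, hij, hf⟩ := Finset.exists_ne_map_eq_of_card_lt_of_maps_to
    (s := Finset.range (Module.finrank k M + 1))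
    (t := (Finset.univ : Finset (M →ₐ[k] AlgebraicClosure k)))
    (f := fun i : ℕ => ((σ ^ i : AlgebraicClosure k ≃ₐ[k] AlgebraicClosure k) :
      AlgebraicClosure k →ₐ[k] AlgebraicClosure k).comp M.val) (by
      rw [Finset.card_range, Finset.card_univ, hcard]
      exact Nat.lt_succ_self _) (fun _ _ => Finset.mem_coe.2 (Finset.mem_univ _))
  have key : ∀ i j : ℕ, i ≤ Module.finrank k M → j ≤ Module.finrank k M → i < j →
      (∀ x ∈ M, (σ ^ i) x = (σ ^ j) x) →
      ∃ a : ℕ, 0 < a ∧ a ≤ Module.finrank k M ∧ σ ^ a ∈ M.fixingSubgroup := by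
    intro i j hi hj hlt h
    refine ⟨j - i, by omega, by omega, ?_⟩
    rw [IntermediateField.mem_fixingSubgroup_iff]
    intro x hx
    have h1 := h x hx
    have h2 : σ ^ j = σ ^ i * σ ^ (j - i) := by
      rw [← pow_add]
      congr 1
      omega
    rw [h2, AlgEquiv.mul_apply] at h1
    exact ((σ ^ i).injective h1).symm
  have hx : ∀ x ∈ M, (σ ^ i) x = (σ ^ j) x := by
    intro x hx
    have := congrArg (fun f : M →ₐ[k] AlgebraicClosure k => f ⟨x, hx⟩) hf
    exact this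
  have hi' := Finset.mem_range.1 hi
  have hj' := Finset.mem_range.1 hj
  rcases Nat.lt_or_gt_of_ne hij with h | h
  · exact key i j (by omega) (by omega) h hx
  · exact key j i (by omega) (by omega) h (fun x hx' => (hx x hx').symm)

/-- the bound: `l` is the length of the word in `r` letters and `d` the degree -/
def bd (r l d : ℕ) : ℕ := 8 * (3 * d ^ 2) ^ 2 * (((2 * r + 2) ^ 2 * (3 * d ^ 2) ^ 3) ^ l) ^ 2

theorem Ym_pow (c : ℤ) (e : ℕ) : Ym c ^ e = Ym (e * c) := by
  induction e with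
  | zero =>
    rw [pow_zero, Nat.cast_zero, zero_mul]
    apply Subtype.ext
    change (1 : Matrix (Fin 2) (Fin 2) ℤ) = !![1, 0; 0, 1]
    rw [Matrix.one_fin_two]
  | succ e ih =>
    rw [pow_succ, ih]
    apply Subtype.ext
    change !![1, 0; (e : ℤ) * c, 1] * !![1, 0; c, 1] = !![1, 0; ((e + 1 : ℕ) : ℤ) * c, 1]
    rw [Matrix.mul_fin_two]
    push_cast
    simp [add_mul]

open scoped Classical in
/-- the order of a point which generates a subgroup stable under the values of a word -/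
theorem law_order {A B : k} {n : ℕ} (hn : 1 ≤ n) (h : HasSLn A B n)
    (M : IntermediateField k (AlgebraicClosure k)) [FiniteDimensional k M] {r : ℕ}
    {w : FreeGroup (Fin r)} (hw : w ≠ 1) {z : EP A B}
    (hz : ∀ τ : Fin r → (AlgebraicClosure k ≃ₐ[k] AlgebraicClosure k),
      (∀ i, τ i ∈ M.fixingSubgroup) → act A B (FreeGroup.lift τ w) z ∈ AddSubgroup.zmultiples z)
    (hord : addOrderOf z = n) : n ≤ bd r w.toWord.length (Module.finrank k M) := by
  obtain ⟨P, Q, hB, hsl⟩ := h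
  obtain ⟨σ, hσ1, hσ2⟩ := hsl 1 1 0 1 ⟨0, by ring⟩
  obtain ⟨τ, hτ1, hτ2⟩ := hsl 1 0 1 1 ⟨0, by ring⟩
  obtain ⟨a, ha0, had, ha⟩ := pig M σ
  obtain ⟨b, hb0, hbd, hb⟩ := pig M τ
  have hx : Ac (rho A B) P Q σ (Xm 1) := by
    constructor
    · rw [rho_apply, hσ1]
      simp [Xm]
    · rw [rho_apply, hσ2]
      simp [Xm]
  have hy : Ac (rho A B) P Q τ (Ym 1) := by
    constructor
    · rw [rho_apply, hτ1]
      simp [Ym]
    · rw [rho_apply, hτ2]
      simp [Ym]
  have hx2 := hx.pow (3 * a * b)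
  have hy2 := hy.pow (3 * a * b)
  rw [Xm_pow, mul_one] at hx2
  rw [Ym_pow, mul_one] at hy2
  have hab : 1 ≤ a * b := Nat.mul_pos ha0 hb0
  have hc : (3 : ℤ) ≤ ((3 * a * b : ℕ) : ℤ) := by
    have : 3 ≤ 3 * a * b := by nlinarith
    exact_mod_cast this
  have hxH : σ ^ (3 * a * b) ∈ M.fixingSubgroup := by
    have : 3 * a * b = a * (3 * b) := by ring
    rw [this, pow_mul]
    exact M.fixingSubgroup.pow_mem ha _
  have hyH : τ ^ (3 * a * b) ∈ M.fixingSubgroup := by
    have : 3 * a * b = b * (3 * a) := by ring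
    rw [this, pow_mul]
    exact M.fixingSubgroup.pow_mem hb _
  have key := ord_le (H := M.fixingSubgroup) hn hB.hP hB.hQ hB.span hB.ind hc hxH hyH hx2 hy2 hw
    hord (by
      intro τ' hτ'
      obtain ⟨m, hm⟩ := AddSubgroup.mem_zmultiples_iff.1 (hz τ' hτ')
      exact ⟨m, hm.symm⟩)
  have hle : 3 * a * b ≤ 3 * Module.finrank k M ^ 2 := by
    have := Nat.mul_le_mul had hbd
    nlinarith
  have key2 : n ≤ 8 * (3 * a * b) ^ 2 *
      (((2 * r + 2) ^ 2 * (3 * a * b) ^ 3) ^ w.toWord.length) ^ 2 := by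
    exact_mod_cast key
  refine key2.trans ?_
  unfold bd
  gcongr

open scoped Classical in
/-- the order of a point, all orders -/
theorem law_all {A B : k} (h : LQ A B) (M : IntermediateField k (AlgebraicClosure k))
    [FiniteDimensional k M] {r : ℕ} {w : FreeGroup (Fin r)} (hw : w ≠ 1) {y : EP A B}
    (hy : ∀ τ : Fin r → (AlgebraicClosure k ≃ₐ[k] AlgebraicClosure k),
      (∀ i, τ i ∈ M.fixingSubgroup) → act A B (FreeGroup.lift τ w) y ∈ AddSubgroup.zmultiples y)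
    (hf : IsOfFinAddOrder y) :
    addOrderOf y ≤ bd r w.toWord.length (Module.finrank k M) ^ 2 := by
  obtain ⟨p, hp, h1, h2⟩ := h
  have hpos : 0 < addOrderOf y := hf.addOrderOf_pos
  obtain ⟨s, m, hm, hk⟩ := Nat.exists_eq_pow_mul_and_not_dvd hpos.ne' p hp.ne_one
  have hm0 : m ≠ 0 := by
    rintro rfl
    exact hm (dvd_zero _)
  have hpk : 0 < p ^ s := pow_pos hp.pos s
  have e1 : m ≤ bd r w.toWord.length (Module.finrank k M) := by
    refine law_order (Nat.pos_of_ne_zero hm0) (h1 m (Nat.pos_of_ne_zero hm0) hm) M hw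
      (z := (p ^ s) • y) (fun τ hτ => stab_smul' (hy τ hτ) _) ?_
    rw [addOrderOf_nsmul' y hpk.ne', hk, Nat.gcd_mul_right_left, Nat.mul_div_cancel_left _ hpk]
  have e2 : p ^ s ≤ bd r w.toWord.length (Module.finrank k M) := by
    refine law_order hpk (h2 s) M hw (z := m • y) (fun τ hτ => stab_smul' (hy τ hτ) _) ?_
    rw [addOrderOf_nsmul' y hm0, hk, Nat.gcd_mul_left_left,
      Nat.mul_div_cancel _ (Nat.pos_of_ne_zero hm0)]
  rw [hk, pow_two]
  exact Nat.mul_le_mul e2 e1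

/-- the commutator word -/
def cw : FreeGroup (Fin 2) :=
  FreeGroup.of 0 * FreeGroup.of 1 * (FreeGroup.of 0)⁻¹ * (FreeGroup.of 1)⁻¹

theorem lift_cw {G : Type*} [Group G] (g h : G) :
    FreeGroup.lift ![g, h] cw = g * h * g⁻¹ * h⁻¹ := by
  simp [cw]

open scoped Classical in
/-- the order of a point which generates a subgroup stable under the commutators -/
theorem ab_order {A B : k} {n : ℕ} (hn : 1 ≤ n) (h : HasSLn A B n)
    (M : IntermediateField k (AlgebraicClosure k)) [FiniteDimensional k M] {z : EP A B}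
    (hz : ∀ τ : Fin 2 → (AlgebraicClosure k ≃ₐ[k] AlgebraicClosure k),
      (∀ i, τ i ∈ M.fixingSubgroup) → act A B (FreeGroup.lift τ cw) z ∈ AddSubgroup.zmultiples z)
    (hord : addOrderOf z = n) : n ≤ 8 * Module.finrank k M ^ 4 := by
  obtain ⟨P, Q, hB, hsl⟩ := h
  obtain ⟨σ, hσ1, hσ2⟩ := hsl 1 1 0 1 ⟨0, by ring⟩
  obtain ⟨τ, hτ1, hτ2⟩ := hsl 1 0 1 1 ⟨0, by ring⟩
  obtain ⟨a, ha0, had, ha⟩ := pig M σ
  obtain ⟨b, hb0, hbd, hb⟩ := pig M τ
  have hx : Ac (rho A B) P Q σ (Xm 1) := by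
    constructor
    · rw [rho_apply, hσ1]
      simp [Xm]
    · rw [rho_apply, hσ2]
      simp [Xm]
  have hy : Ac (rho A B) P Q τ (Ym 1) := by
    constructor
    · rw [rho_apply, hτ1]
      simp [Ym]
    · rw [rho_apply, hτ2]
      simp [Ym]
  have hx2 := hx.pow a
  have hy2 := hy.pow b
  rw [Xm_pow, mul_one] at hx2
  rw [Ym_pow, mul_one] at hy2
  have key := ord_ab (H := M.fixingSubgroup) hn hB.hP hB.hQ hB.span hB.ind ha hb hx2 hy2
    hord (by
      intro g hg h hh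
      have h1 := hz ![g, h] (fun i => by
        fin_cases i
        · exact hg
        · exact hh)
      rw [lift_cw] at h1
      obtain ⟨m, hm⟩ := AddSubgroup.mem_zmultiples_iff.1 h1
      exact ⟨m, hm.symm⟩)
  have key2 : n ∣ 8 * a ^ 2 * b ^ 2 := by exact_mod_cast key
  refine (Nat.le_of_dvd (by positivity) key2).trans ?_
  calc 8 * a ^ 2 * b ^ 2 ≤ 8 * Module.finrank k M ^ 2 * Module.finrank k M ^ 2 := by gcongr
    _ = _ := by ring

open scoped Classical in
/-- the order of a point, all orders -/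
theorem ab_all {A B : k} (h : LQ A B) (M : IntermediateField k (AlgebraicClosure k))
    [FiniteDimensional k M] {y : EP A B}
    (hy : ∀ τ : Fin 2 → (AlgebraicClosure k ≃ₐ[k] AlgebraicClosure k),
      (∀ i, τ i ∈ M.fixingSubgroup) → act A B (FreeGroup.lift τ cw) y ∈ AddSubgroup.zmultiples y)
    (hf : IsOfFinAddOrder y) :
    addOrderOf y ≤ (8 * Module.finrank k M ^ 4) ^ 2 := by
  obtain ⟨p, hp, h1, h2⟩ := h
  have hpos : 0 < addOrderOf y := hf.addOrderOf_pos
  obtain ⟨s, m, hm, hk⟩ := Nat.exists_eq_pow_mul_and_not_dvd hpos.ne' p hp.ne_one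
  have hm0 : m ≠ 0 := by
    rintro rfl
    exact hm (dvd_zero _)
  have hpk : 0 < p ^ s := pow_pos hp.pos s
  have e1 : m ≤ 8 * Module.finrank k M ^ 4 := by
    refine ab_order (Nat.pos_of_ne_zero hm0) (h1 m (Nat.pos_of_ne_zero hm0) hm) M
      (z := (p ^ s) • y) (fun τ hτ => stab_smul' (hy τ hτ) _) ?_
    rw [addOrderOf_nsmul' y hpk.ne', hk, Nat.gcd_mul_right_left, Nat.mul_div_cancel_left _ hpk]
  have e2 : p ^ s ≤ 8 * Module.finrank k M ^ 4 := by
    refine ab_order hpk (h2 s) M (z := m • y) (fun τ hτ => stab_smul' (hy τ hτ) _) ?_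
    rw [addOrderOf_nsmul' y hm0, hk, Nat.gcd_mul_left_left,
      Nat.mul_div_cancel _ (Nat.pos_of_ne_zero hm0)]
  rw [hk, pow_two]
  exact Nat.mul_le_mul e2 e1

end

open scoped Classical in
/-- the torsion of prime order is spanned by two elements (`Pool.Agent.N495.TS.span2`, for all fields of
characteristic zero) -/
theorem span2F {K : Type} [Field K] [CharZero K] {A B : K} (hD : 4 * A ^ 3 + 27 * B ^ 2 ≠ 0)
    {q : ℕ} (hq : q.Prime) : ∃ P Q : EP A B, q • P = 0 ∧ q • Q = 0 ∧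
      ∀ R : EP A B, q • R = 0 → ∃ m n : ℤ, R = m • P + n • Q := by
  haveI : CharZero (AlgebraicClosure K) :=
    charZero_of_injective_algebraMap (algebraMap K (AlgebraicClosure K)).injective
  obtain ⟨hfin, hcard⟩ := Mul.tor (AlgebraicClosure K) _ _ (Pool.Agent.Y673.FM.disc_ca hD) q hq.one_le
  set e := eqv A B (AlgebraicClosure K) with he
  set S : Set (EP A B) := {P | q • P = 0} with hS
  have himg : e '' S = {P | q • P = 0} := by
    ext P
    constructor
    · rintro ⟨R, hR, rfl⟩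
      show q • e R = 0
      rw [← map_nsmul, (show q • R = 0 from hR), map_zero]
    · intro hP
      refine ⟨e.symm P, ?_, AddEquiv.apply_symm_apply _ _⟩
      show q • e.symm P = 0
      rw [← map_nsmul, (show q • P = 0 from hP), map_zero]
  have hScard : q ^ 2 ≤ S.ncard := by
    rw [← Set.ncard_image_of_injective S e.injective, himg]
    exact hcard
  have hSfin : S.Finite := by
    apply Set.Finite.of_finite_image _ e.injective.injOn
    rw [himg]
    exact hfin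
  have h2 := hq.two_le
  obtain ⟨P, hP, hP0⟩ : ∃ P ∈ S, P ≠ 0 := by
    by_contra hcon
    push Not at hcon
    have h1 : S ⊆ {0} := fun P hP => hcon P hP
    have h3 := Set.ncard_le_ncard h1 (Set.finite_singleton _)
    rw [Set.ncard_singleton] at h3
    nlinarith
  obtain ⟨Q, hQ, hPQ⟩ : ∃ Q ∈ S, Q ∉ AddSubgroup.zmultiples P := by
    by_contra hcon
    push Not at hcon
    have h1 : S ⊆ (AddSubgroup.zmultiples P : Set (EP A B)) := fun Q hQ => hcon Q hQ
    have hPo : addOrderOf P ∣ q := addOrderOf_dvd_of_nsmul_eq_zero hP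
    have hPo2 : addOrderOf P ≤ q := Nat.le_of_dvd hq.pos hPo
    have hfinP : (AddSubgroup.zmultiples P : Set (EP A B)).Finite := by
      rw [AddSubgroup.coe_zmultiples]
      have hfo : IsOfFinAddOrder P := isOfFinAddOrder_iff_nsmul_eq_zero.2 ⟨q, hq.pos, hP⟩
      have := (finite_zmultiples (a := P)).2 hfo
      exact this
    have h3 := Set.ncard_le_ncard h1 hfinP
    have h4 : (AddSubgroup.zmultiples P : Set (EP A B)).ncard = addOrderOf P := by
      rw [← Nat.card_coe_set_eq]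
      exact Nat.card_zmultiples P
    rw [h4] at h3
    nlinarith
  obtain ⟨h6, -⟩ := basis hD hq hP hQ hP0 hPQ
  exact ⟨P, Q, hP, hQ, h6⟩

open scoped Classical in
/-- **abelian varieties over extensions whose Galois group satisfies a law** -/
theorem tq_any (hT : S_TORSM) (k : Type) [Field k] [NumberField k] (K : Type) [Field K]
    [CharZero K] [Algebra k K] [FiniteDimensional k K] (F : Type) [Field F] [CharZero F]
    [Algebra K F] [Algebra k F] [IsScalarTower k K F] [IsGalois K F] {r : ℕ}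
    {w : FreeGroup (Fin r)} (hlaw : ∀ h : Fin r → (F ≃ₐ[K] F), FreeGroup.lift h w = 1) (N : ℕ)
    (hN : ∀ (A₀ B₀ : k), LQ A₀ B₀ → ∀ (M : IntermediateField k (AlgebraicClosure k)),
      FiniteDimensional k M → Module.finrank k M = Module.finrank k K → ∀ y : EP A₀ B₀,
      (∀ τ : Fin r → (AlgebraicClosure k ≃ₐ[k] AlgebraicClosure k),
        (∀ i, τ i ∈ M.fixingSubgroup) →
        act A₀ B₀ (FreeGroup.lift τ w) y ∈ AddSubgroup.zmultiples y) →
      IsOfFinAddOrder y → addOrderOf y ≤ N ^ 2)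
    {g : ℕ} {A B : Fin g → F}
    (hD : ∀ i, 4 * A i ^ 3 + 27 * B i ^ 2 ≠ 0) (j : Fin g → k) (hjl : ∀ i, LJk (j i))
    (hjv : ∀ i, jv (A i) (B i) = algebraMap k F (j i))
    (Γ : AddSubgroup (∀ i, EP (A i) (B i))) (hfin : (Γ : Set (∀ i, EP (A i) (B i))).Finite)
    (hst : ∀ σ : AlgebraicClosure F ≃ₐ[F] AlgebraicClosure F, ∀ x ∈ Γ,
      (fun i => act (A i) (B i) σ (x i)) ∈ Γ)
    {x : ∀ i, EP (A i) (B i)}
    (hx : ∀ σ : AlgebraicClosure F ≃ₐ[F] AlgebraicClosure F,
      (fun i => act (A i) (B i) σ (x i) - x i) ∈ Γ)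
    (hf : IsOfFinAddOrder (x : (∀ i, EP (A i) (B i)) ⧸ Γ)) :
    addOrderOf (x : (∀ i, EP (A i) (B i)) ⧸ Γ) ≤ N ^ (4 * g) := by
  obtain ⟨M, θ, hfd, hfr, hsurj, htw⟩ := twF (k := k) K F
  have hj0 : ∀ i, algebraMap k F (j i) ≠ 0 := fun i => by
    rw [Ne, map_eq_zero]
    exact (hjl i).1
  have hj1 : ∀ i, algebraMap k F (j i) ≠ 1728 := fun i h => by
    apply (hjl i).2.1
    apply (algebraMap k F).injective
    rw [h, map_ofNat]
  have hex : ∀ i, ∃ (A₀ B₀ : k) (φ : EP (A i) (B i) →+ EP A₀ B₀), (4 * A₀ ^ 3 + 27 * B₀ ^ 2 ≠ 0 ∧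
      jv A₀ B₀ = j i) ∧
      Function.Injective φ ∧ ∀ σ, (∀ P, φ (act (A i) (B i) σ P) = act A₀ B₀ (θ σ) (φ P)) ∨
        (∀ P, φ (act (A i) (B i) σ P) = - act A₀ B₀ (θ σ) (φ P)) := by
    intro i
    obtain ⟨r, hr0, hr1, hr2⟩ := Pool.Agent.Y673.SN.twist_of (hD i) (hjv i) (hj0 i) (hj1 i)
    have hne : j i - 1728 ≠ 0 := sub_ne_zero.2 (hjl i).2.1
    have hD0 : 4 * (-3 * j i * (j i - 1728)) ^ 3 + 27 * (-2 * j i * (j i - 1728) ^ 2) ^ 2 ≠ 0 := by
      have e : 4 * (-3 * j i * (j i - 1728)) ^ 3 + 27 * (-2 * j i * (j i - 1728) ^ 2) ^ 2 =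
          -186624 * (j i) ^ 2 * (j i - 1728) ^ 3 := by ring
      rw [e]
      exact mul_ne_zero (mul_ne_zero (by norm_num) (pow_ne_zero 2 (hjl i).1)) (pow_ne_zero 3 hne)
    have hjv0 : jv (-3 * j i * (j i - 1728)) (-2 * j i * (j i - 1728) ^ 2) = j i := by
      unfold jv
      rw [div_eq_iff hD0]
      ring
    obtain ⟨φ, h1, h2⟩ := htw (A i) (B i) r (-3 * j i * (j i - 1728)) (-2 * j i * (j i - 1728) ^ 2)
      hr0 (by
        rw [← hr1]
        simp only [map_mul, map_neg, map_sub, map_ofNat]) (by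
        rw [← hr2]
        simp only [map_mul, map_neg, map_sub, map_pow, map_ofNat])
    exact ⟨_, _, φ, ⟨hD0, hjv0⟩, h1, h2⟩
  choose A₀ B₀ φ hAB hφ hφ2 using hex
  have hL : ∀ i, LQ (A₀ i) (B₀ i) := fun i => (hjl i).2.2 _ _ (hAB i).1 (hAB i).2
  obtain ⟨c, v, hcw, hdvd⟩ := hT (AlgebraicClosure F ≃ₐ[F] AlgebraicClosure F) g
    (fun i => EP (A i) (B i)) (fun i σ => act (A i) (B i) σ)
    (fun i q hq => span2F (hD i) hq) Γ hfin (fun σ y hy => hst σ y hy) x (fun σ => hx σ) hf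
  -- transfer
  have trans : ∀ (i : Fin g) (y : EP (A i) (B i)),
      (∀ σ, act (A i) (B i) σ y ∈ AddSubgroup.zmultiples y) →
      ∀ τ : Fin r → (AlgebraicClosure k ≃ₐ[k] AlgebraicClosure k),
        (∀ i, τ i ∈ M.fixingSubgroup) →
        act (A₀ i) (B₀ i) (FreeGroup.lift τ w) (φ i y) ∈ AddSubgroup.zmultiples (φ i y) := by
    intro i y hy τ hτ
    obtain ⟨σ, hσ⟩ := hsurj r w hlaw τ hτ
    rw [← hσ]
    obtain ⟨m, hm⟩ := AddSubgroup.mem_zmultiples_iff.1 (hy σ)
    rcases hφ2 i σ with h | h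
    · refine AddSubgroup.mem_zmultiples_iff.2 ⟨m, ?_⟩
      rw [← h y, ← hm, map_zsmul]
    · refine AddSubgroup.mem_zmultiples_iff.2 ⟨-m, ?_⟩
      have h1 := h y
      rw [← hm, map_zsmul] at h1
      rw [neg_zsmul, h1, neg_neg]
  have hc := fun i => trans i (c i) (hcw i).2.2.1
  have hv := fun i => trans i (v i) (fun σ => by
    have h1 : act (A i) (B i) σ (v i) = v i := (hcw i).2.2.2 σ
    rw [h1]
    exact AddSubgroup.mem_zmultiples _)
  have hco : ∀ i, addOrderOf (φ i (c i)) = addOrderOf (c i) := fun i =>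
    addOrderOf_injective (φ i) (hφ i) _
  have hvo : ∀ i, addOrderOf (φ i (v i)) = addOrderOf (v i) := fun i =>
    addOrderOf_injective (φ i) (hφ i) _
  have hcf : ∀ i, IsOfFinAddOrder (φ i (c i)) := fun i => by
    rw [← addOrderOf_pos_iff, hco]
    exact (hcw i).1.addOrderOf_pos
  have hvf : ∀ i, IsOfFinAddOrder (φ i (v i)) := fun i => by
    rw [← addOrderOf_pos_iff, hvo]
    exact (hcw i).2.1.addOrderOf_pos
  have hpos : 0 < ∏ i, (addOrderOf (c i) * addOrderOf (v i)) :=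
    Finset.prod_pos fun i _ => Nat.mul_pos (hcw i).1.addOrderOf_pos (hcw i).2.1.addOrderOf_pos
  refine (Nat.le_of_dvd hpos hdvd).trans ?_
  refine (Finset.prod_le_prod' (g := fun _ => N ^ 4) fun i _ => ?_).trans ?_
  · have h1 := hN _ _ (hL i) M hfd hfr _ (hc i) (hcf i)
    have h2 := hN _ _ (hL i) M hfd hfr _ (hv i) (hvf i)
    rw [hco] at h1
    rw [hvo] at h2
    have h3 := Nat.mul_le_mul h1 h2
    rw [← pow_add] at h3
    exact h3
  · rw [Finset.prod_const, Finset.card_univ, Fintype.card_fin, ← pow_mul]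

open scoped Classical in
/-- laws -/
theorem n_law (k : Type) [Field k] [NumberField k] (d : ℕ) {r : ℕ} {w : FreeGroup (Fin r)}
    (hw : w ≠ 1) (A₀ B₀ : k) (h : LQ A₀ B₀) (M : IntermediateField k (AlgebraicClosure k))
    (hM : FiniteDimensional k M) (hd : Module.finrank k M = d) (y : EP A₀ B₀)
    (hy : ∀ τ : Fin r → (AlgebraicClosure k ≃ₐ[k] AlgebraicClosure k),
        (∀ i, τ i ∈ M.fixingSubgroup) →
        act A₀ B₀ (FreeGroup.lift τ w) y ∈ AddSubgroup.zmultiples y)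
    (hf : IsOfFinAddOrder y) : addOrderOf y ≤ bd r w.toWord.length d ^ 2 := by
  rw [← hd]
  exact law_all h M hw hy hf

open scoped Classical in
/-- abelian extensions -/
theorem n_ab (k : Type) [Field k] [NumberField k] (d : ℕ) (A₀ B₀ : k) (h : LQ A₀ B₀)
    (M : IntermediateField k (AlgebraicClosure k))
    (hM : FiniteDimensional k M) (hd : Module.finrank k M = d) (y : EP A₀ B₀)
    (hy : ∀ τ : Fin 2 → (AlgebraicClosure k ≃ₐ[k] AlgebraicClosure k),
        (∀ i, τ i ∈ M.fixingSubgroup) →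
        act A₀ B₀ (FreeGroup.lift τ cw) y ∈ AddSubgroup.zmultiples y)
    (hf : IsOfFinAddOrder y) : addOrderOf y ≤ (8 * d ^ 4) ^ 2 := by
  rw [← hd]
  exact ab_all h M hy hf

/-- the bound in a simple form -/
theorem bd_le (r l d : ℕ) (hd : 1 ≤ d) : bd r l d ^ 4 ≤
    ((8 * 3 ^ 2 * (((2 * r + 2) ^ 2 * 3 ^ 3) ^ l) ^ 2) ^ 4 * (12 * l + 4) * 4 * d) ^
      ((8 * 3 ^ 2 * (((2 * r + 2) ^ 2 * 3 ^ 3) ^ l) ^ 2) ^ 4 * (12 * l + 4) * 4) := by
  have e : bd r l d ^ 4 = (8 * 3 ^ 2 * (((2 * r + 2) ^ 2 * 3 ^ 3) ^ l) ^ 2) ^ 4 *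
      d ^ ((12 * l + 4) * 4) := by
    unfold bd
    rw [mul_pow ((2 * r + 2) ^ 2) ((3 * d ^ 2) ^ 3), mul_pow ((2 * r + 2) ^ 2) (3 ^ 3)]
    have h1 : ((3 * d ^ 2) ^ 3) ^ l = (3 ^ 3) ^ l * d ^ (6 * l) := by
      rw [mul_pow 3 (d ^ 2), mul_pow, ← pow_mul d, ← pow_mul d]
    rw [h1]
    ring
  rw [e]
  generalize (8 * 3 ^ 2 * (((2 * r + 2) ^ 2 * 3 ^ 3) ^ l) ^ 2) ^ 4 = R at *
  rcases Nat.eq_zero_or_pos R with h0 | h0
  · rw [h0, zero_mul]
    exact Nat.zero_le _
  · rw [mul_pow]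
    have h2 : 1 ≤ 12 * l + 4 := by omega
    have h3 : (12 * l + 4) * 4 ≤ R * (12 * l + 4) * 4 := by nlinarith
    have h4 : R ≤ R * (12 * l + 4) * 4 := by nlinarith
    have h5 : R * (12 * l + 4) * 4 ≠ 0 := by positivity
    exact Nat.mul_le_mul (h4.trans (Nat.le_self_pow h5 _)) (Nat.pow_le_pow_right hd h3)

end Pool.Agent.W2helper56.UL
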