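import Mathlib

/-!
# Ping-pong for a family of matrices in `SL₂(ℤ)`, with polynomial bounds for the entries
-/

set_option autoImplicit false

namespace Pool.Agent.W2helper56.UL

open Matrix

/-- the matrix `X^e Y X^(-e)` with `X = (1 c; 0 1)`, `Y = (1 0; c 1)` -/
def sl (c e : ℤ) : SpecialLinearGroup (Fin 2) ℤ :=
  ⟨!![1 + e * c ^ 2, -(e ^ 2 * c ^ 3); c, 1 - e * c ^ 2], by
    rw [Matrix.det_fin_two_of]
    ring⟩

theorem sl_inv (c e : ℤ) : ((sl c e)⁻¹ : SpecialLinearGroup (Fin 2) ℤ).1 =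
    !![1 - e * c ^ 2, e ^ 2 * c ^ 3; -c, 1 + e * c ^ 2] := by
  rw [Matrix.SpecialLinearGroup.SL2_inv_expl]
  simp [sl]
  rfl

/-- the two parts of the disc of `e` -/
def D (c e : ℤ) (b : Bool) : Set (ℤ × ℤ) :=
  {v | |v.1 - e * c * v.2| < |v.2| ∧
    if b then 0 ≤ (v.1 - e * c * v.2) * v.2 else (v.1 - e * c * v.2) * v.2 < 0}

/-- the action on vectors -/
def ap (M : SpecialLinearGroup (Fin 2) ℤ) (v : ℤ × ℤ) : ℤ × ℤ :=
  (M.1 0 0 * v.1 + M.1 0 1 * v.2, M.1 1 0 * v.1 + M.1 1 1 * v.2)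

theorem ap_mul (M N : SpecialLinearGroup (Fin 2) ℤ) (v : ℤ × ℤ) : ap (M * N) v = ap M (ap N v) := by
  unfold ap
  ext <;> simp [Matrix.mul_apply, Fin.sum_univ_two] <;> ring

theorem ap_one (v : ℤ × ℤ) : ap 1 v = v := by
  unfold ap
  ext <;> simp

theorem ap_ne (M : SpecialLinearGroup (Fin 2) ℤ) {v : ℤ × ℤ} (hv : v ≠ 0) : ap M v ≠ 0 := by
  intro h
  apply hv
  have h1 : ap M⁻¹ (ap M v) = v := by rw [← ap_mul, inv_mul_cancel, ap_one]
  rw [← h1, h]
  unfold ap
  ext <;> simp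

/-- a letter and its sign -/
def let' (c e : ℤ) (b : Bool) : SpecialLinearGroup (Fin 2) ℤ := cond b (sl c e) (sl c e)⁻¹

theorem let_true (c e : ℤ) : let' c e true = sl c e := rfl

theorem let_false (c e : ℤ) : let' c e false = (sl c e)⁻¹ := rfl

theorem mem_true {c e p q : ℤ} : (p, q) ∈ D c e true ↔
    |p - e * c * q| < |q| ∧ 0 ≤ (p - e * c * q) * q := by
  simp [D]

theorem mem_false {c e p q : ℤ} : (p, q) ∈ D c e false ↔
    |p - e * c * q| < |q| ∧ (p - e * c * q) * q < 0 := by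
  simp [D]

theorem ap_sl (c e p q : ℤ) : ap (sl c e) (p, q) =
    (p + e * c * (c * (p - e * c * q)), q + c * (p - e * c * q)) := by
  unfold ap sl
  ext
  · simp
    ring
  · simp
    ring

theorem ap_sl_inv (c e p q : ℤ) : ap (sl c e)⁻¹ (p, q) =
    (p - e * c * (c * (p - e * c * q)), q - c * (p - e * c * q)) := by
  unfold ap
  rw [sl_inv]
  ext
  · simp
    ring
  · simp
    ring

theorem letter {c e : ℤ} (hc : 3 ≤ c) (b : Bool) {v : ℤ × ℤ} (hv : v ≠ 0)
    (h : v ∉ D c e (!b)) : ap (let' c e b) v ∈ D c e b := by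
  obtain ⟨p, q⟩ := v
  obtain ⟨t, ht⟩ : ∃ t, t = p - e * c * q := ⟨_, rfl⟩
  have hne : t ≠ 0 ∨ q ≠ 0 := by
    by_contra hcon
    push Not at hcon
    apply hv
    obtain ⟨h1, h2⟩ := hcon
    subst h2
    rw [h1] at ht
    simp only [mul_zero, sub_zero] at ht
    rw [← ht]
    rfl
  cases b with
  | true =>
    have h' : ¬ (|t| < |q| ∧ t * q < 0) := by
      intro hcon
      apply h
      rw [ht] at hcon
      exact mem_false.2 hcon
    rw [let_true, ap_sl, mem_true, ← ht]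
    have e2 : p + e * c * (c * t) - e * c * (q + c * t) = t := by
      rw [ht]
      ring
    rw [e2]
    have key : 0 ≤ t * q → |t| < |q + c * t| ∧ 0 ≤ t * (q + c * t) := by
      intro h1
      have h2 : 0 ≤ t * (q + c * t) := by nlinarith [sq_nonneg t]
      refine ⟨?_, h2⟩
      rw [← sq_lt_sq]
      rcases eq_or_ne t 0 with h0 | h0
      · subst h0
        have : q ≠ 0 := by
          rcases hne with h | h
          · exact absurd rfl h
          · exact h
        have h3 := sq_pos_of_ne_zero this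
        nlinarith
      · have h3 := sq_pos_of_ne_zero h0
        nlinarith [sq_nonneg q]
    by_cases h1 : 0 ≤ t * q
    · exact key h1
    · push Not at h1
      have h2 : |q| ≤ |t| := by
        by_contra hcon
        push Not at hcon
        exact h' ⟨hcon, h1⟩
      have h0 : t ≠ 0 := by
        rintro rfl
        simp at h1
      have h3 := sq_pos_of_ne_zero h0
      have h4 : q ^ 2 ≤ t ^ 2 := sq_le_sq.2 h2
      have h5 : - t ^ 2 ≤ t * q := by nlinarith [sq_nonneg (t + q)]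
      have h6 : 0 ≤ t * (q + c * t) := by nlinarith
      refine ⟨?_, h6⟩
      rw [← sq_lt_sq]
      have h7 : (q + c * t) ^ 2 = q ^ 2 + 2 * c * (t * q) + c ^ 2 * t ^ 2 := by ring
      rw [h7]
      have h8 : 2 * c * (t * q) ≥ - (c * (q ^ 2 + t ^ 2)) := by nlinarith [sq_nonneg (t + q)]
      -- c² t² - c t² - c q² + q² > t²
      have h9 : 2 * c * (t * q) ≥ - (2 * c * t ^ 2) := by nlinarith
      nlinarith [sq_nonneg q]
  | false =>
    have h' : ¬ (|t| < |q| ∧ 0 ≤ t * q) := by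
      intro hcon
      apply h
      rw [ht] at hcon
      exact mem_true.2 hcon
    rw [let_false, ap_sl_inv, mem_false, ← ht]
    have e2 : p - e * c * (c * t) - e * c * (q - c * t) = t := by
      rw [ht]
      ring
    rw [e2]
    have h0 : t ≠ 0 := by
      rintro rfl
      apply h'
      simp only [abs_zero, abs_pos, zero_mul, le_refl, and_true]
      rcases hne with h | h
      · exact absurd rfl h
      · exact h
    have h3 := sq_pos_of_ne_zero h0
    by_cases h1 : t * q < 0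
    · have h2 : t * (q - c * t) < 0 := by nlinarith
      refine ⟨?_, h2⟩
      rw [← sq_lt_sq]
      nlinarith [sq_nonneg q]
    · push Not at h1
      have h2 : |q| ≤ |t| := by
        by_contra hcon
        push Not at hcon
        exact h' ⟨hcon, h1⟩
      have h4 : q ^ 2 ≤ t ^ 2 := sq_le_sq.2 h2
      have h5 : t * q ≤ t ^ 2 := by nlinarith [sq_nonneg (t - q)]
      have h6 : t * (q - c * t) < 0 := by nlinarith
      refine ⟨?_, h6⟩
      rw [← sq_lt_sq]
      have h7 : (q - c * t) ^ 2 = q ^ 2 - 2 * c * (t * q) + c ^ 2 * t ^ 2 := by ring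
      rw [h7]
      have h9 : 2 * c * (t * q) ≤ 2 * c * t ^ 2 := by nlinarith
      nlinarith [sq_nonneg q]

theorem disj {c e e' : ℤ} (hc : 3 ≤ c) {b b' : Bool} {v : ℤ × ℤ} (h : v ∈ D c e b)
    (h' : v ∈ D c e' b') : e = e' ∧ b = b' := by
  have h1 := h.1
  have h2 := h'.1
  have he : e = e' := by
    by_contra hne
    have h3 : |(e' - e) * c * v.2| < 2 * |v.2| := by
      have : (e' - e) * c * v.2 = (v.1 - e * c * v.2) - (v.1 - e' * c * v.2) := by ring
      rw [this]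
      calc _ ≤ |v.1 - e * c * v.2| + |v.1 - e' * c * v.2| := abs_sub _ _
        _ < _ := by linarith
    rw [abs_mul, abs_mul] at h3
    have h4 : 1 ≤ |e' - e| := Int.one_le_abs (sub_ne_zero.2 (Ne.symm hne))
    have h5 : |c| = c := abs_of_pos (by linarith)
    rw [h5] at h3
    have h6 : 0 ≤ |v.2| := abs_nonneg _
    have h7 : 1 * c ≤ |e' - e| * c := mul_le_mul_of_nonneg_right h4 (by linarith)
    have h8 : 1 * c * |v.2| ≤ |e' - e| * c * |v.2| := mul_le_mul_of_nonneg_right h7 h6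
    nlinarith
  refine ⟨he, ?_⟩
  subst he
  have h3 := h.2
  have h4 := h'.2
  cases b <;> cases b' <;> simp_all <;> linarith

/-- ping-pong -/
theorem ping {ι : Type} {c : ℤ} (hc : 3 ≤ c) (e : ι → ℤ) (he : Function.Injective e) :
    ∀ (L : List (ι × Bool)) (a : ι × Bool), FreeGroup.IsReduced (a :: L) →
    ∀ v : ℤ × ℤ, v ≠ 0 → (∀ i b, v ∉ D c (e i) b) →
      ap (((a :: L).map fun x => let' c (e x.1) x.2).prod) v ∈ D c (e a.1) a.2 := by
  intro L
  induction L with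
  | nil =>
    intro a _ v hv hvD
    simp only [List.map_cons, List.map_nil, List.prod_cons, List.prod_nil, mul_one]
    exact letter hc a.2 hv (hvD _ _)
  | cons a' L ih =>
    intro a hred v hv hvD
    rw [FreeGroup.isReduced_cons_cons] at hred
    have h1 := ih a' hred.2 v hv hvD
    rw [List.map_cons, List.prod_cons, ap_mul]
    apply letter hc a.2
    · exact ap_ne _ hv
    · intro hcon
      obtain ⟨h2, h3⟩ := disj hc h1 hcon
      have h4 := hred.1 (he h2).symm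
      rw [h4] at h3
      revert h3
      cases a'.2 <;> simp

section
variable {ι : Type} [DecidableEq ι]

theorem lift_eq (c : ℤ) (e : ι → ℤ) (w : FreeGroup ι) :
    FreeGroup.lift (fun i => sl c (e i)) w =
      (w.toWord.map fun x => let' c (e x.1) x.2).prod := by
  conv_lhs => rw [← FreeGroup.mk_toWord (x := w)]
  rw [FreeGroup.lift_mk]
  rfl

theorem ping_word {c : ℤ} (hc : 3 ≤ c) (e : ι → ℤ) (he : Function.Injective e) {w : FreeGroup ι}
    (hw : w ≠ 1) {v : ℤ × ℤ} (hv : v ≠ 0) (hvD : ∀ i b, v ∉ D c (e i) b) :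
    ∃ i b, ap (FreeGroup.lift (fun i => sl c (e i)) w) v ∈ D c (e i) b := by
  rw [lift_eq]
  have h1 : w.toWord ≠ [] := fun h => hw (FreeGroup.toWord_eq_nil_iff.1 h)
  obtain ⟨a, L, hL⟩ := List.exists_cons_of_ne_nil h1
  have h2 : FreeGroup.IsReduced w.toWord := FreeGroup.isReduced_toWord
  rw [hL] at h2 ⊢
  exact ⟨a.1, a.2, ping hc e he L a h2 v hv hvD⟩

/-- two families with disjoint indices give elements which do not commute -/
theorem not_comm {c : ℤ} (hc : 3 ≤ c) (e e' : ι → ℤ) (he : Function.Injective e)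
    (he' : Function.Injective e') (hd : ∀ i j, e i ≠ e' j) {w : FreeGroup ι} (hw : w ≠ 1) :
    FreeGroup.lift (fun i => sl c (e i)) w * FreeGroup.lift (fun i => sl c (e' i)) w ≠
      FreeGroup.lift (fun i => sl c (e' i)) w * FreeGroup.lift (fun i => sl c (e i)) w := by
  intro heq
  have hv : ((1, 0) : ℤ × ℤ) ≠ 0 := by simp
  have hvD : ∀ (e : ℤ) (b : Bool), ((1, 0) : ℤ × ℤ) ∉ D c e b := by
    intro e b h
    have := h.1
    simp at this
  obtain ⟨i, b, h1⟩ := ping_word hc e he hw hv (fun i b => hvD _ _)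
  obtain ⟨i', b', h2⟩ := ping_word hc e' he' hw hv (fun i b => hvD _ _)
  obtain ⟨j, d, h3⟩ := ping_word hc e he hw (ap_ne (FreeGroup.lift (fun i => sl c (e' i)) w) hv)
    (fun i b h => hd _ _ (disj hc h h2).1)
  obtain ⟨j', d', h4⟩ := ping_word hc e' he' hw (ap_ne (FreeGroup.lift (fun i => sl c (e i)) w) hv)
    (fun i b h => hd _ _ (disj hc h h1).1.symm)
  rw [← ap_mul] at h3 h4
  rw [heq] at h3
  exact hd _ _ (disj hc h3 h4).1

end

/-- the sum of the absolute values of the entries -/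
def nm (M : Matrix (Fin 2) (Fin 2) ℤ) : ℤ := |M 0 0| + |M 0 1| + |M 1 0| + |M 1 1|

theorem nm_nonneg (M : Matrix (Fin 2) (Fin 2) ℤ) : 0 ≤ nm M := by
  unfold nm
  positivity

theorem nm_mul (M N : Matrix (Fin 2) (Fin 2) ℤ) : nm (M * N) ≤ nm M * nm N := by
  unfold nm
  simp only [Matrix.mul_apply, Fin.sum_univ_two]
  have h1 := abs_add_le (M 0 0 * N 0 0) (M 0 1 * N 1 0)
  have h2 := abs_add_le (M 0 0 * N 0 1) (M 0 1 * N 1 1)
  have h3 := abs_add_le (M 1 0 * N 0 0) (M 1 1 * N 1 0)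
  have h4 := abs_add_le (M 1 0 * N 0 1) (M 1 1 * N 1 1)
  rw [abs_mul, abs_mul] at h1 h2 h3 h4
  have p : ∀ i j k l, 0 ≤ |M i j| * |N k l| := fun i j k l =>
    mul_nonneg (abs_nonneg _) (abs_nonneg _)
  have := p 0 0 1 0
  have := p 0 0 1 1
  have := p 0 1 0 0
  have := p 0 1 0 1
  have := p 1 0 1 0
  have := p 1 0 1 1
  have := p 1 1 0 0
  have := p 1 1 0 1
  nlinarith

theorem nm_let {c e m : ℤ} (hc : 1 ≤ c) (he : 0 ≤ e) (hem : e ≤ m) (b : Bool) :
    nm (let' c e b).1 ≤ (m + 2) ^ 2 * c ^ 3 := by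
  have h1 : |1 + e * c ^ 2| ≤ 1 + m * c ^ 2 := by
    rw [abs_of_nonneg (by positivity)]
    nlinarith [sq_nonneg c]
  have h2 : |1 - e * c ^ 2| ≤ 1 + m * c ^ 2 := by
    have h5 : 0 ≤ e * c ^ 2 := by positivity
    have h6 : e * c ^ 2 ≤ m * c ^ 2 := mul_le_mul_of_nonneg_right hem (sq_nonneg c)
    rw [abs_le]
    constructor <;> linarith
  have h3 : |e ^ 2 * c ^ 3| ≤ m ^ 2 * c ^ 3 := by
    rw [abs_of_nonneg (by positivity)]
    exact mul_le_mul_of_nonneg_right (pow_le_pow_left₀ he hem 2) (by positivity)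
  have h4 : |c| = c := abs_of_pos (by linarith)
  have hm : 0 ≤ m := he.trans hem
  have hc2 : 1 ≤ c ^ 2 := one_le_pow₀ hc
  have hc3 : c ^ 2 ≤ c ^ 3 := pow_le_pow_right₀ hc (by norm_num)
  have hc4 : c ≤ c ^ 3 := le_self_pow₀ hc (by norm_num)
  have h7 : m * c ^ 2 ≤ m * c ^ 3 := mul_le_mul_of_nonneg_left hc3 hm
  have hfin : (1 + m * c ^ 2) + m ^ 2 * c ^ 3 + c + (1 + m * c ^ 2) ≤ (m + 2) ^ 2 * c ^ 3 := by
    have h8 : (m + 2) ^ 2 * c ^ 3 = m ^ 2 * c ^ 3 + 4 * (m * c ^ 3) + 4 * c ^ 3 := by ring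
    rw [h8]
    have : 0 ≤ m * c ^ 3 := by positivity
    linarith
  cases b with
  | true =>
    have : nm (let' c e true).1 =
        |1 + e * c ^ 2| + |-(e ^ 2 * c ^ 3)| + |c| + |1 - e * c ^ 2| := by
      rw [let_true]
      simp [nm, sl]
    rw [this, abs_neg]
    linarith
  | false =>
    have : nm (let' c e false).1 =
        |1 - e * c ^ 2| + |e ^ 2 * c ^ 3| + |-c| + |1 + e * c ^ 2| := by
      rw [let_false, sl_inv]
      simp [nm]
    rw [this, abs_neg]
    linarith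

theorem nm_list {ι : Type} {c m : ℤ} (hc : 1 ≤ c) (e : ι → ℤ) (he : ∀ i, 0 ≤ e i ∧ e i ≤ m)
    (L : List (ι × Bool)) : nm (((L.map fun x => let' c (e x.1) x.2).prod).1) ≤
      2 * ((m + 2) ^ 2 * c ^ 3) ^ L.length := by
  induction L with
  | nil => simp [nm]
  | cons a L ih =>
    rw [List.map_cons, List.prod_cons, List.length_cons]
    have h1 : ((let' c (e a.1) a.2) * (L.map fun x => let' c (e x.1) x.2).prod).1 =
        (let' c (e a.1) a.2).1 * ((L.map fun x => let' c (e x.1) x.2).prod).1 := rfl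
    rw [h1]
    have h2 := nm_let hc (he a.1).1 (he a.1).2 a.2
    have h3 := nm_mul (let' c (e a.1) a.2).1 ((L.map fun x => let' c (e x.1) x.2).prod).1
    have h4 := nm_nonneg ((L.map fun x => let' c (e x.1) x.2).prod).1
    have h5 : 0 ≤ (m + 2) ^ 2 * c ^ 3 := by positivity
    calc _ ≤ _ := h3
      _ ≤ ((m + 2) ^ 2 * c ^ 3) * nm ((L.map fun x => let' c (e x.1) x.2).prod).1 :=
          mul_le_mul_of_nonneg_right h2 h4
      _ ≤ ((m + 2) ^ 2 * c ^ 3) * (2 * ((m + 2) ^ 2 * c ^ 3) ^ L.length) :=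
          mul_le_mul_of_nonneg_left ih h5
      _ = _ := by ring

theorem entry_le (M : Matrix (Fin 2) (Fin 2) ℤ) (i j : Fin 2) : |M i j| ≤ nm M := by
  have := abs_nonneg (M 0 0)
  have := abs_nonneg (M 0 1)
  have := abs_nonneg (M 1 0)
  have := abs_nonneg (M 1 1)
  unfold nm
  fin_cases i <;> fin_cases j <;> simp <;> linarith

/-- the first `r` indices -/
def ea (r : ℕ) (i : Fin r) : ℕ := i

/-- the next `r` indices -/
def eb (r : ℕ) (i : Fin r) : ℕ := r + i

/-- the value of the word at the matrices with indices `e` -/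
def wv {r : ℕ} (w : FreeGroup (Fin r)) (c : ℤ) (e : Fin r → ℕ) : SpecialLinearGroup (Fin 2) ℤ :=
  FreeGroup.lift (fun i => sl c (e i)) w

theorem wv_ne {r : ℕ} {w : FreeGroup (Fin r)} (hw : w ≠ 1) {c : ℤ} (hc : 3 ≤ c) :
    wv w c (ea r) * wv w c (eb r) ≠ wv w c (eb r) * wv w c (ea r) := by
  refine not_comm hc (fun i : Fin r => ((ea r i : ℕ) : ℤ)) (fun i : Fin r => ((eb r i : ℕ) : ℤ))
      ?_ ?_ ?_ hw
  · intro i j h
    have h1 : ((ea r i : ℕ) : ℤ) = (ea r j : ℕ) := h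
    have h2 : ea r i = ea r j := by exact_mod_cast h1
    exact Fin.ext h2
  · intro i j h
    have h1 : ((eb r i : ℕ) : ℤ) = (eb r j : ℕ) := h
    have h2 : eb r i = eb r j := by exact_mod_cast h1
    unfold eb at h2
    exact Fin.ext (by omega)
  · intro i j h
    have h1 : ((ea r i : ℕ) : ℤ) = (eb r j : ℕ) := h
    have h2 : ea r i = eb r j := by exact_mod_cast h1
    unfold ea eb at h2
    have := i.2
    omega

theorem wv_nm {r : ℕ} (w : FreeGroup (Fin r)) {c : ℤ} (hc : 3 ≤ c) (e : Fin r → ℕ)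
    (he : ∀ i, e i ≤ 2 * r) :
    nm (wv w c e).1 ≤ 2 * ((2 * r + 2) ^ 2 * c ^ 3) ^ w.toWord.length := by
  have h1 : ∀ i, (0 : ℤ) ≤ ((e i : ℕ) : ℤ) ∧ ((e i : ℕ) : ℤ) ≤ 2 * (r : ℤ) := by
    intro i
    have h2 : ((e i : ℕ) : ℤ) ≤ ((2 * r : ℕ) : ℤ) := Nat.cast_le.2 (he i)
    push_cast at h2
    exact ⟨Int.natCast_nonneg _, h2⟩
  have h3 := nm_list (c := c) (m := 2 * (r : ℤ)) (by linarith) (fun i => ((e i : ℕ) : ℤ)) h1
    w.toWord
  rw [← lift_eq c (fun i => ((e i : ℕ) : ℤ)) w] at h3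
  exact h3

/-- a nonzero entry of the commutator, with a bound -/
theorem comm_entry {r : ℕ} {w : FreeGroup (Fin r)} (hw : w ≠ 1) {c : ℤ} (hc : 3 ≤ c) :
    ∃ i j : Fin 2, (wv w c (ea r) * wv w c (eb r)).1 i j - (wv w c (eb r) * wv w c (ea r)).1 i j ≠ 0 ∧
      |(wv w c (ea r) * wv w c (eb r)).1 i j - (wv w c (eb r) * wv w c (ea r)).1 i j| ≤
        8 * (((2 * r + 2) ^ 2 * c ^ 3) ^ w.toWord.length) ^ 2 := by
  have hne := wv_ne hw hc
  have bA := wv_nm w hc (ea r) (fun i => by unfold ea; have := i.2; omega)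
  have bB := wv_nm w hc (eb r) (fun i => by unfold eb; have := i.2; omega)
  generalize wv w c (ea r) = A at *
  generalize wv w c (eb r) = B at *
  obtain ⟨i, j, hij⟩ : ∃ i j, (A * B).1 i j ≠ (B * A).1 i j := by
    by_contra hcon
    push Not at hcon
    apply hne
    ext i j
    exact hcon i j
  refine ⟨i, j, sub_ne_zero.2 hij, ?_⟩
  generalize ((2 * (r : ℤ) + 2) ^ 2 * c ^ 3) ^ w.toWord.length = R at *
  have h1 : |(A * B).1 i j| ≤ nm A.1 * nm B.1 := (entry_le _ i j).trans (nm_mul A.1 B.1)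
  have h2 : |(B * A).1 i j| ≤ nm B.1 * nm A.1 := (entry_le _ i j).trans (nm_mul B.1 A.1)
  have h3 : nm A.1 * nm B.1 ≤ (2 * R) * (2 * R) :=
    mul_le_mul bA bB (nm_nonneg _) ((nm_nonneg _).trans bA)
  calc _ ≤ |(A * B).1 i j| + |(B * A).1 i j| := abs_sub _ _
    _ ≤ 2 * (nm A.1 * nm B.1) := by linarith [mul_comm (nm A.1) (nm B.1)]
    _ ≤ 2 * ((2 * R) * (2 * R)) := by linarith
    _ = _ := by ring

end Pool.Agent.W2helper56.UL
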